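import Mathlib
import Pool.Agent.NH29.HY.MainB

set_option autoImplicit false

/-!
# Vojta's conjecture for algebraic points: a lower bound for the error term on hyperelliptic curves

`k` is any number field and `C : y² = f(x)` any hyperelliptic curve over `k`, `f` squarefree of
degree at least `5`. Its genus is `g = (deg f - 1) / 2 ≥ 2` (rounded down) and its canonical divisor
is `g - 1` times the pullback of a point under the map `x`.
-/

namespace Pool.Agent.Results.MP_9b9442_nt.HyperellipticErrorTerm

open NumberField Module

/-- The genus of the hyperelliptic curve `y² = f(x)`. -/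
def genus {k : Type} [Field k] (f : Polynomial k) : ℕ := (f.natDegree - 1) / 2

/-- The height `h_K(P)` of an affine point `P = (x, y)` of the curve `y² = f(x)` with respect to the
canonical divisor, relative to `k`: `g - 1` times the logarithmic height of `x`. -/
noncomputable def height {k : Type} [Field k] (f : Polynomial k) {F : Type} [Field F]
    [NumberField F] [Algebra k F] (x : F) : ℝ :=
  ((genus f : ℝ) - 1) * (Height.logHeight₁ x / finrank k F)

/-- The logarithmic discriminant `d_k(F)`. -/
noncomputable def logDisc (k : Type) [Field k] [NumberField k] (F : Type) [Field F]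
    [NumberField F] [Algebra k F] : ℝ :=
  Real.log |(discr F : ℝ)| / finrank k F - Real.log |(discr k : ℝ)|

/-- **The error term of Vojta's inequality is at least `([k : ℚ] / 4) log h` on every hyperelliptic
curve.** The curve `y² = f(x)` has affine points `P = (x, y)` of degree at most `8 (deg f) ^ 5` over
`k` and of arbitrarily large height with `h_K(P) ≥ d_k(P) + ([k : ℚ] / 4) log h_K(P) - c`. -/
theorem result (k : Type) [Field k] [NumberField k] (f : Polynomial k) (hf : Squarefree f)
    (hdeg : 5 ≤ f.natDegree) :
    ∃ c : ℝ, ∀ H : ℝ, ∃ (F : Type) (_ : Field F) (_ : NumberField F) (_ : Algebra k F) (x y : F),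
      y ^ 2 = Polynomial.aeval x f ∧ IntermediateField.adjoin k {x, y} = ⊤ ∧
      finrank k F ≤ 8 * f.natDegree ^ 5 ∧ H ≤ height f x ∧
      logDisc k F + finrank ℚ k / 4 * Real.log (height f x) - c ≤ height f x := by
  obtain ⟨c, hc⟩ := Pool.Agent.NH29.HY.mainB k f hf hdeg
  refine ⟨c, fun H => ?_⟩
  obtain ⟨F, i1, i2, i3, x, y, h1, h2, h3, h4, h5⟩ := hc H
  have hg : 1 ≤ genus f := by unfold genus; omega
  have hgR : (((f.natDegree - 1) / 2 - 1 : ℕ) : ℝ) = (genus f : ℝ) - 1 := by
    have h6 : (f.natDegree - 1) / 2 - 1 = genus f - 1 := rfl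
    rw [h6, Nat.cast_sub hg, Nat.cast_one]
  rw [hgR] at h4 h5
  refine ⟨F, i1, i2, i3, x, y, h1, h3, h2, h4, ?_⟩
  have h7 : Pool.Agent.NH29.VE.lD k F = logDisc k F := rfl
  rw [h7] at h5
  unfold height
  linarith

end Pool.Agent.Results.MP_9b9442_nt.HyperellipticErrorTerm
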