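import Mathlib
import Pool.Agent.NH29.HY.MainA

set_option autoImplicit false

/-!
# Vojta's conjecture for algebraic points: powers of an arbitrary hyperelliptic curve

`k` is any number field and `C : y² = f(x)` any hyperelliptic curve over `k`, `f` squarefree of
degree at least `5`, of genus `g = (deg f - 1) / 2 ≥ 2` (rounded down). `X = C ^ n` with `n ≥ 2`, and
`K_X` is `g - 1` times the sum of the pullbacks of a point under the maps `x i : X → ℙ¹`, an ample
divisor. The finite map `(x i, y i) ↦ (x i)` sends a proper Zariski-closed subset of `X` to a proper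
Zariski-closed subset of `(ℙ¹)^n`, which lies in the zero set of some polynomial `G ≠ 0` in `n`
variables (in the affine part).
-/

namespace Pool.Agent.Results.MP_9b9442_nt.HyperellipticProductsEpsilon

open NumberField Module

/-- The genus of the hyperelliptic curve `y² = f(x)`. -/
def genus {k : Type} [Field k] (f : Polynomial k) : ℕ := (f.natDegree - 1) / 2

/-- The height `h_{K_X}(P)` of the affine point `P = (x i, y i)` of `X = C ^ n`, relative to `k`:
`g - 1` times the sum of the logarithmic heights of the `x i`. -/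
noncomputable def height {k : Type} [Field k] (f : Polynomial k) {F : Type} [Field F]
    [NumberField F] [Algebra k F] {n : ℕ} (x : Fin n → F) : ℝ :=
  ((genus f : ℝ) - 1) * ((∑ i, Height.logHeight₁ (x i)) / finrank k F)

/-- The logarithmic discriminant `d_k(F)`. -/
noncomputable def logDisc (k : Type) [Field k] [NumberField k] (F : Type) [Field F]
    [NumberField F] [Algebra k F] : ℝ :=
  Real.log |(discr F : ℝ)| / finrank k F - Real.log |(discr k : ℝ)|

/-- Vojta's inequality `h_K(P) ≤ κ d_k(P) + ε h_K(P) + C` on `X = C ^ n`, for all affine points `P`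
of degree at most `d` over `k` outside the zero set of `G (x 1, …, x n)`. The conjecture has
`κ = 1`. -/
def VojtaInequality {k : Type} [Field k] [NumberField k] (f : Polynomial k) {n : ℕ}
    (G : MvPolynomial (Fin n) k) (κ ε C : ℝ) (d : ℕ) : Prop :=
  ∀ (F : Type) [Field F] [NumberField F] [Algebra k F] (x y : Fin n → F),
    (∀ i, y i ^ 2 = Polynomial.aeval (x i) f) → finrank k F ≤ d →
    IntermediateField.adjoin k (Set.range x ∪ Set.range y) = ⊤ →
    MvPolynomial.aeval x G ≠ 0 →
    height f x ≤ κ * logDisc k F + ε * height f x + C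

/-- **The exceptional set depends on `ε` for the powers of every hyperelliptic curve.**
Let `G ≠ 0` and suppose that Vojta's inequality with `κ` and `ε` holds on `X = C ^ n` (`n ≥ 2`) for
all affine points of degree at most `2 ^ (n + 2) (deg f) ^ 5` over `k` outside the zero set of
`G (x 1, …, x n)`, for some constant `C`. Then `G` has in each variable a degree at least the number
of pairs of coprime positive integers `(a, b)` with
`κ ((g - 1) (a² + b²) - 1/4) < (1 - ε) (g - 1) (a² + b²)`. For `κ = 1` these are the pairs with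
`4 ε (g - 1) (a² + b²) < 1`, and for `κ ≤ 1 - ε`, `κ > 0`, they are all the pairs. -/
theorem result (k : Type) [Field k] [NumberField k] (f : Polynomial k) (hf : Squarefree f)
    (hdeg : 5 ≤ f.natDegree) (n : ℕ) (hn : 2 ≤ n) (G : MvPolynomial (Fin n) k) (hG : G ≠ 0)
    (κ ε C : ℝ) (hκ : 0 ≤ κ)
    (hV : VojtaInequality f G κ ε C (2 ^ (n + 2) * f.natDegree ^ 5)) (S : Finset (ℕ × ℕ))
    (hS : ∀ p ∈ S, 0 < p.1 ∧ 0 < p.2 ∧ Nat.Coprime p.1 p.2 ∧
      κ * (((genus f : ℝ) - 1) * ((p.1 : ℝ) ^ 2 + (p.2 : ℝ) ^ 2) - 1 / 4) <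
        (1 - ε) * (((genus f : ℝ) - 1) * ((p.1 : ℝ) ^ 2 + (p.2 : ℝ) ^ 2)))
    (j : Fin n) : S.card ≤ G.degreeOf j := by
  have hnt : Nontrivial (Fin n) := Fin.nontrivial_iff_two_le.2 hn
  obtain ⟨i, hij⟩ := exists_ne j
  have hg : 1 ≤ genus f := by unfold genus; omega
  have hgR : (((f.natDegree - 1) / 2 - 1 : ℕ) : ℝ) = (genus f : ℝ) - 1 := by
    have h6 : (f.natDegree - 1) / 2 - 1 = genus f - 1 := rfl
    rw [h6, Nat.cast_sub hg, Nat.cast_one]
  refine Pool.Agent.NH29.HY.mainA k f hf hdeg G hG κ ε C hκ ?_ S ?_ hij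
  · intro F _ _ _ x y h1 h2 h3 h4
    have h5 := hV F x y h1 h2 h3 h4
    unfold height at h5
    unfold Pool.Agent.NH29.HY.hyp
    rw [hgR]
    exact h5
  · intro p hp
    rw [hgR]
    exact hS p hp

end Pool.Agent.Results.MP_9b9442_nt.HyperellipticProductsEpsilon
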