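import Mathlib
import Pool.Agent.NH29.VE.Main2

set_option autoImplicit false

/-!
# Vojta's conjecture for quadratic points: the exceptional set depends on `ε`

`k` is any number field, `E : y² = x³ + A x + B` an elliptic curve over `k` with infinitely many
rational points, and `n = m + 2 ≥ 2`. Let `B₀` be the product of `E ^ m` and the blow-up of `E × E`
at `(O, O)`; the functions `(1 : x 0 : x 1)` and `x i` (`i ≥ 2`) define a morphism from `B₀` to
`ℙ² × (ℙ¹)^m`. Let `Ψ` be a polynomial of degree at most `2` in `x 0, x 1` together and in each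
`x i` with `i ≥ 2`, and `X` the double cover `w² = Ψ(x)` of `B₀`. For general `Ψ` the variety `X` is
smooth of dimension `n`, and `K_X` is the pullback of `e + l + ∑ 2 (O)_i`, where `e` is the
exceptional divisor and `l` the pullback of a line of `ℙ²`; this is an ample divisor. As
`2 e + l` is the pullback of `2 (O) × E + E × 2 (O)`, the height for `K_X` is
`(h(x 0) + h(x 1) + h(1 : x 0 : x 1)) / 2 + ∑ h(x i)`.
A proper Zariski-closed subset of `X` has as image in `(ℙ¹)^n` a proper Zariski-closed subset,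
which lies in the zero set of some polynomial `G ≠ 0` in `n` variables (in the affine part).
-/

namespace Pool.Agent.Results.MP_9b9442_nt.QuadraticPointsEpsilon

open NumberField Module

/-- The height `h_{K_X}(P)` of the point `P = (x, y, w)` of `X`, relative to `k`:
`(h(x 0) + h(x 1) + h(1 : x 0 : x 1)) / 2 + h(x 2) + ⋯ + h(x (m + 1))`. -/
noncomputable def height (k : Type) [Field k] {F : Type} [Field F] [NumberField F] [Algebra k F]
    {m : ℕ} (x : Fin (m + 2) → F) : ℝ :=
  ((Height.logHeight₁ (x 0) + Height.logHeight₁ (x 1) + Height.logHeight ![1, x 0, x 1]) / 2 +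
    ∑ i : Fin m, Height.logHeight₁ (x i.succ.succ)) / finrank k F

/-- The logarithmic discriminant `d_k(F)`. -/
noncomputable def logDisc (k : Type) [Field k] [NumberField k] (F : Type) [Field F]
    [NumberField F] [Algebra k F] : ℝ :=
  Real.log |(discr F : ℝ)| / finrank k F - Real.log |(discr k : ℝ)|

/-- Vojta's inequality `h_K(P) ≤ d_k(P) + ε h_K(P) + C` on `X`, for all affine points
`P = (x, y, w)` of degree at most `2` over `k` outside the zero set of `G (x 0, …, x (m + 1))`. -/
def VojtaInequality {k : Type} [Field k] [NumberField k] (A B : k) {m : ℕ}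
    (Ψ G : MvPolynomial (Fin (m + 2)) k) (ε C : ℝ) : Prop :=
  ∀ (F : Type) [Field F] [NumberField F] [Algebra k F] (x y : Fin (m + 2) → F) (w : F),
    (∀ i, y i ^ 2 = x i ^ 3 + algebraMap k F A * x i + algebraMap k F B) →
    w ^ 2 = MvPolynomial.aeval x Ψ → finrank k F ≤ 2 →
    IntermediateField.adjoin k (Set.range x ∪ Set.range y ∪ {w}) = ⊤ →
    MvPolynomial.aeval x G ≠ 0 →
    height k x ≤ logDisc k F + ε * height k x + C

/-- **Already for quadratic points the exceptional set depends on `ε`.** Let `G ≠ 0` and suppose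
that Vojta's inequality with `ε` holds on `X` for all affine points of degree at most `2` over `k`
outside the zero set of `G (x 0, …, x (m + 1))`, for some constant `C`. Then the degrees of `G` in
`x 0` and in `x 1` are at least the number of pairs of coprime positive integers `(a, b)` with
`ε (2 (a² + b²) - 1) < 1`. -/
theorem result (k : Type) [Field k] [NumberField k] (A B : k)
    (hΔ : 4 * A ^ 3 + 27 * B ^ 2 ≠ 0)
    (hE : {p : k × k | p.2 ^ 2 = p.1 ^ 3 + A * p.1 + B}.Infinite) (m : ℕ)
    (Ψ : MvPolynomial (Fin (m + 2)) k)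
    (hΨ : ∀ d ∈ Ψ.support, d 0 + d 1 ≤ 2 ∧ ∀ i : Fin m, d i.succ.succ ≤ 2)
    (G : MvPolynomial (Fin (m + 2)) k) (hG : G ≠ 0) (ε C : ℝ) (hε : 0 ≤ ε)
    (hV : VojtaInequality A B Ψ G ε C) (S : Finset (ℕ × ℕ))
    (hS : ∀ p ∈ S, 0 < p.1 ∧ 0 < p.2 ∧ Nat.Coprime p.1 p.2 ∧
      ε * (2 * ((p.1 : ℝ) ^ 2 + (p.2 : ℝ) ^ 2) - 1) < 1) :
    S.card ≤ G.degreeOf 0 ∧ S.card ≤ G.degreeOf 1 := by
  classical
  have hV' : Pool.Agent.NH29.VE.VI2 A B Ψ G ε C := fun F _ _ _ x y w => hV F x y w
  exact ⟨Pool.Agent.NH29.VE.main2 A B hΔ hE Ψ hΨ G hG ε C hε hV' S hS (Or.inr ⟨rfl, rfl⟩),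
    Pool.Agent.NH29.VE.main2 A B hΔ hE Ψ hΨ G hG ε C hε hV' S hS (Or.inl ⟨rfl, rfl⟩)⟩

end Pool.Agent.Results.MP_9b9442_nt.QuadraticPointsEpsilon
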