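import Mathlib
import Pool.Agent.NH29.VE.Main

set_option autoImplicit false

/-!
# Vojta's conjecture for algebraic points: the exceptional set depends on `ε`

`k` is any number field and `E : y² = x³ + A x + B` an elliptic curve over `k` with infinitely many
rational points. `C` is the smooth plane quartic `w⁴ = x³ + A x + B` (a double cover of `E`, of
genus `3`), and `X = C ^ n` with `n ≥ 2`, so that `K_X` is the sum of the pullbacks of a line
section from the `n` factors, an ample divisor. The finite map `(x i, w i) ↦ (x i)` sends a proper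
Zariski-closed subset of `X` to a proper Zariski-closed subset of `(ℙ¹)^n`, which lies in the zero
set of some polynomial `G ≠ 0` in `n` variables (in the affine part).
-/

namespace Pool.Agent.Results.MP_9b9442_nt.QuarticProductsEpsilon

open NumberField Module

/-- The height `h_{K_X}(P)` of the point `P = (x i, w i)` of `X = C ^ n`, relative to `k`: the sum
of the logarithmic heights of the points `(x i : w i : 1)` of the projective plane. -/
noncomputable def height (k : Type) [Field k] {F : Type} [Field F] [NumberField F] [Algebra k F]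
    {n : ℕ} (x w : Fin n → F) : ℝ :=
  (∑ i, Height.logHeight ![x i, w i, 1]) / finrank k F

/-- The logarithmic discriminant `d_k(F)`. -/
noncomputable def logDisc (k : Type) [Field k] [NumberField k] (F : Type) [Field F]
    [NumberField F] [Algebra k F] : ℝ :=
  Real.log |(discr F : ℝ)| / finrank k F - Real.log |(discr k : ℝ)|

/-- Vojta's inequality `h_K(P) ≤ κ d_k(P) + ε h_K(P) + C` on `X = C ^ n`, for all affine points `P`
of degree at most `d` over `k` outside the zero set of `G (x 1, …, x n)`. The conjecture has
`κ = 1`. -/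
def VojtaInequality {k : Type} [Field k] [NumberField k] (A B : k) {n : ℕ}
    (G : MvPolynomial (Fin n) k) (κ ε C : ℝ) (d : ℕ) : Prop :=
  ∀ (F : Type) [Field F] [NumberField F] [Algebra k F] (x w : Fin n → F),
    (∀ i, w i ^ 4 = x i ^ 3 + algebraMap k F A * x i + algebraMap k F B) → finrank k F ≤ d →
    IntermediateField.adjoin k (Set.range x ∪ Set.range w) = ⊤ →
    MvPolynomial.aeval x G ≠ 0 →
    height k x w ≤ κ * logDisc k F + ε * height k x w + C

/-- **The exceptional set depends on `ε`, although `K_X` is ample and the degree is bounded.**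
Let `G ≠ 0` and suppose that Vojta's inequality with `κ` and `ε` holds on `X = C ^ n` (`n ≥ 2`) for
all affine points of degree at most `2 ^ n` over `k` outside the zero set of `G (x 1, …, x n)`, for
some constant `C`. Then `G` has in each variable a degree at least the number of pairs of coprime
positive integers `(a, b)` with `κ (a² + b² - 1) < (1 - ε) (a² + b²)`. For `κ = 1` these are the
pairs with `ε (a² + b²) < 1`, and for `κ < 1 - ε` they are all the pairs. -/
theorem result (k : Type) [Field k] [NumberField k] (A B : k)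
    (hΔ : 4 * A ^ 3 + 27 * B ^ 2 ≠ 0)
    (hE : {p : k × k | p.2 ^ 2 = p.1 ^ 3 + A * p.1 + B}.Infinite) (n : ℕ) (hn : 2 ≤ n)
    (G : MvPolynomial (Fin n) k) (hG : G ≠ 0) (κ ε C : ℝ) (hκ : 0 ≤ κ)
    (hV : VojtaInequality A B G κ ε C (2 ^ n)) (S : Finset (ℕ × ℕ))
    (hS : ∀ p ∈ S, 0 < p.1 ∧ 0 < p.2 ∧ Nat.Coprime p.1 p.2 ∧
      κ * ((p.1 : ℝ) ^ 2 + (p.2 : ℝ) ^ 2 - 1) < (1 - ε) * ((p.1 : ℝ) ^ 2 + (p.2 : ℝ) ^ 2))
    (j : Fin n) : S.card ≤ G.degreeOf j := by
  have hnt : Nontrivial (Fin n) := Fin.nontrivial_iff_two_le.2 hn
  obtain ⟨i, hij⟩ := exists_ne j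
  exact Pool.Agent.NH29.VE.main A B hΔ hE G hG κ ε C hκ (fun F _ _ _ x w => hV F x w) S hS hij

end Pool.Agent.Results.MP_9b9442_nt.QuarticProductsEpsilon
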